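import Pool.Agent.Work.MP_2b9663_nt.Ar.Final

set_option autoImplicit false

namespace Pool.Agent.Results.MP_2b9663_nt.ArtinEigenforms

open Pool.Agent.Work.MP_2b9663_nt

/-- Let `t p k` be a system of Frobenius traces that satisfies the Weil bound of weight `i` and
dimension `b`: for instance the traces of the geometric Frobenius elements on `H ^ i (X)`, for any
smooth projective variety `X` over `ℚ`, by Deligne's theorem. For the character `φ = tr R` of an Artin
representation `R` of `ℚ`, or `φ = fix_K` of a number field `K`, let `m φ` be the order at
`s₀ = i / 2 + 1` of the `L`-function of `t` twisted by `R`, or of `t` over `K` (for `H ^ i (X)`: of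
`H ^ i (X) ⊗ R`, or of `H ^ i (X × Spec K)`), if it extends meromorphically to a neighbourhood of `s₀`;
and `m (∑ c j * φ j) = ∑ c j * m (φ j)` for virtual characters. Let `θ` be a bound for the mean square of
the normalised traces (see `MeanSquare`): `θ = b ^ 2`, or the order of the pole at `i + 1` of the
`L`-function of the tensor product of the system with its dual, or `θ = 1` if `t` belongs to an
eigenform, for instance to an elliptic curve over `ℚ`. Then

(1) `|∑ c j * m (φ j)| ≤ (θ * M(|ψ| ^ 2)) ^ (1 / 2) + b * M(|∑ c j * φ j - ψ|)` for all complex numbers
`c j` and all class functions `ψ` of finite level, `M` the mean value over a Galois group;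
(2) for a number field `K` of degree `n` and rank `r`, `m (fix_K - 1) ^ 2 ≤ θ * (r - 1)`, with strict
inequality if `b ^ 2 * (r - 1) < θ * (n - 1) ^ 2`;
(3) `m (fix_K - 1) = 0`, so the orders over `K` and over `ℚ` are the same, if the images of any two
different embeddings of `K` generate the same Galois extension `L` of `ℚ` and `[L : ℚ] > 2 b (n - 1)`;
for instance for `K = ℚ(c ^ (1 / q))`, if `q > 2 b` is a prime number and the rational number `c` is no
`q`-th power;
(4) if `t` belongs to an eigenform `f`, of any weight `≥ 1`, any level and any character, there is at
most one irreducible character `χ` with `m χ ≠ 0`. It has dimension at most two, `m χ` is `1` or `-1`,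
and the normalised trace of `f` at `p` plus `m χ * χ (Fr p)` tends to zero in the mean square. This
would contradict the known theorem of Sato and Tate for eigenforms of weight at least two.
`m (fix_K - 1) = 0` for all number fields `K` of degree at least four and rank at most two.

For example, let `E` be any elliptic curve over `ℚ`. Then the `L`-function of `H ^ 1 (E) ⊗ R` has no
zero and no pole at `s₀` for every irreducible Artin representation `R` of dimension at least three, if
it extends; and the same is true of the `L`-function of `E` over `K`, for every number field `K` of
degree at least four with a doubly transitive Galois group, since `L(E, 3/2) ≠ 0` is known. Let `S` be a smooth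
projective surface over `ℚ` without odd cohomology, such that `H ^ 2 (S) (1)` is the sum of a trivial
representation and of an irreducible Artin representation of dimension at least three: for instance a
del Pezzo surface of degree at most five on whose lines the Galois group acts as the full Weyl
group. Then `H ^ 3 (S × E)` is the sum of copies of `H ^ 1 (E) (-1)` and of
`(H ^ 1 (E) ⊗ R) (-1)`, and the `L`-functions of `S × E` do not vanish at `s₀` in all degrees, as far
as they extend. -/
theorem result (Ω : Type) [Field Ω] [CharZero Ω] [IsAlgClosure ℚ Ω] :
    (∀ (G : Nat.Primes → Prop) (t : Nat.Primes → ℕ → ℂ) (i b : ℕ) (θ : ℝ),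
      WeilBound G t i b → MeanSquare G t i b θ →
      ClassBound Ω G t i b θ ∧ FieldBound Ω G t i b θ ∧ FrobeniusOrders Ω G t i b ∧
        PureOrders Ω G t i b) ∧
    ∀ (f : Eigenform) (i : ℕ), EigenformOrders Ω f i :=
  ⟨fun _ _ _ _ _ h hθ => ⟨classBound h hθ, fieldBound h hθ, frobeniusOrders h, pureOrders h⟩,
    fun f i => eigenformOrders f i⟩

end Pool.Agent.Results.MP_2b9663_nt.ArtinEigenforms
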