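import Pool.Agent.Work.MP_2b9663_nt.PosSum
import Pool.Agent.Work.MP_2b9663_nt.PosEven

set_option autoImplicit false

namespace Pool.Agent.Results.MP_2b9663_nt.EvenDegrees

open Polynomial NumberField Pool.Agent.Work.MP_2b9663_nt

/-- Let `Y` be a smooth projective variety over the number field `K` whose cohomology vanishes in
the degrees not divisible by `g`, is spanned by `b l` classes of algebraic cycles over `K` in
degree `2 g l` and is the sum of `c l` Tate twists of one Galois representation in degree
`2 g l + g`; for example any curve or any smooth complete intersection of odd dimension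
(`g = 1`), or any surface with vanishing first Betti number (`g = 2`). Then for all `n` and all
`i` divisible by `2 g` the order at `s₀ = i / 2 + 1` of the `L`-function of `H ^ i (Y ^ n)`, if it
extends meromorphically to a neighbourhood of `s₀`, is at most minus the coefficient of `X ^ i` in
`(∑ l, b l * X ^ (2 g l)) ^ n`. -/
theorem result {K : Type} [Field K] [NumberField K] (V : ProjVar K) (d : ℕ) (_hd : 1 ≤ d)
    (_hV : V.IsSmooth d) (S : Finset Nat.Primes) {g : ℕ} (hg : 1 ≤ g) (b c : ℕ → ℕ) (n i : ℕ)
    (hi : 2 * g ∣ i) (F : ℂ → ℂ)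
    (hF : IsPowContinuation S
      (fun (p : Nat.Primes) (k : ℕ) (σ : 𝓞 K →+* Fq p k) =>
        twoTypePoly g d b c ((p : ℕ) ^ k) (V.numPts σ)) n i F) :
    ∃ o : ℤ, meromorphicOrderAt F ((i : ℂ) / 2 + 1) = o ∧
      o ≤ -(((gradedBetti g d b) ^ n).coeff i : ℤ) :=
  order_le_of_homs _ (fun p _ k _ σ => trace_even hg d b c ((p : ℕ) ^ k) (V.numPts σ) n hi) hF

end Pool.Agent.Results.MP_2b9663_nt.EvenDegrees
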