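import Pool.Agent.Work.MP_2b9663_nt.PosSum
import Pool.Agent.Work.MP_2b9663_nt.PosMiddle
import Pool.Agent.Work.MP_2b9663_nt.PosInst

set_option autoImplicit false

namespace Pool.Agent.Results.MP_2b9663_nt.LocalPowers

open Polynomial NumberField Pool.Agent.Work.MP_2b9663_nt

/-- Let `X` be a smooth projective geometrically irreducible variety over the number field `K`, of
dimension `n d`, `n` even, `d ≥ 1`, whose trace polynomials `∑ j, tr(Frob | H ^ j) X ^ j` outside a
finite set of primes are `n`-th powers of real polynomials `R p k σ` with the properties in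
`IsRootPoly`; for example `X = Y ^ n` for any `Y`, the root being the trace polynomial of `Y`.
Then the `L`-function of the middle cohomology of `X`, if it extends meromorphically to a
neighbourhood of `s₀`, has a pole at `s₀` of order at least `n choose n / 2`. Here `X` is the
product of the `V m ^ e m`. For the `n`-th powers of products of varieties whose cohomology
outside the middle degree is algebraic (curves, complete intersections) the roots are given by
the numbers of points, and nothing is left to be assumed. -/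
theorem result {K : Type} [Field K] [NumberField K] (S : Finset Nat.Primes) {r : ℕ}
    (V : Fin r → ProjVar K) (D : Fin r → ℕ) (_hV : ∀ m, (V m).IsSmooth (D m)) {n d : ℕ}
    (hn : Even n) (hd : 1 ≤ d) :
    (∀ e : Fin r → ℕ, ∑ m, e m * D m = n * d →
      ∀ R : (p : Nat.Primes) → (k : ℕ) → (𝓞 K →+* Fq p k) → ℝ[X],
      (∀ p ∉ S, ∀ k ≠ 0, ∀ σ,
        IsRootPoly d ((p : ℕ) ^ k) n (∏ m, (V m).numPts σ ^ e m) (R p k σ)) →
      ∀ F : ℂ → ℂ, IsPowContinuation S R n (n * d) F →
        ∃ o : ℤ, meromorphicOrderAt F (((n * d : ℕ) : ℂ) / 2 + 1) = o ∧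
          o ≤ -(n.choose (n / 2) : ℤ)) ∧
    (∑ m, D m = d → (∀ m, 1 ≤ D m) →
      ∀ b : Fin r → ℕ → ℕ, (∀ m, b m 0 = 1 ∧ ∀ j ≤ D m, b m (D m - j) = b m j) →
      ∀ (p : Nat.Primes) (k : ℕ), k ≠ 0 → ∀ σ : 𝓞 K →+* Fq p k,
        IsRootPoly d ((p : ℕ) ^ k) n (∏ m, (V m).numPts σ ^ n)
          (∏ m, middlePoly (D m) (b m) ((p : ℕ) ^ k) ((V m).numPts σ))) := by
  constructor
  · intro e _ R hR F hF
    exact order_le_of_homs (n.choose (n / 2))
      (fun p hp k hk σ => root_middle hd (pow_pos p.2.pos k) (hR p hp k hk σ) hn) hF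
  · rintro rfl hD b hb p k _ σ
    rw [Finset.prod_pow]
    exact (IsTracePoly.prod Finset.univ (pow_pos p.2.pos k) fun m _ =>
      middlePoly_isTracePoly (hD m) (hb m).1 (hb m).2 _ _).root n

end Pool.Agent.Results.MP_2b9663_nt.LocalPowers
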