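import Pool.Agent.Work.MP_2b9663_nt.Nf.Final3

set_option autoImplicit false

namespace Pool.Agent.Results.MP_2b9663_nt.ModularTwists

open Pool.Agent.Work.MP_2b9663_nt NumberField IsDedekindDomain

/-- Let `t₀ v k`, `t j v k` and `u j v k` be systems of Frobenius traces at the primes `v` of number
fields `K₀`, `K j` and `L j`, on Galois representations `V₀`, `V j` and `U j`, that satisfy the Weil
bounds of weight `i` and dimension `b₀`, `d j` and `e j`: for instance the traces on `H ^ i (X)`, for
any smooth projective variety `X` over the number field, by Deligne's theorem, or on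
`H ^ (i - l) (X)` times `N(v) ^ (k l / 2)`. Let `G j` be a group of automorphisms of `K j` under which
the system `t j` is invariant: for instance `V j` comes from a representation over a subfield `k`,
`K j` is Galois over `k`, and `G j` is its Galois group. Let `X j` be a group of Dirichlet characters
`χ` for which `U j ⊗ χ` has the same traces as `U j`: for instance the trivial group, or the group of
all the characters of the Galois group of `L j`, if `L j` is abelian over `ℚ`. For all indices `a`
let `ψ a j 1, ψ a j 2, …, ψ a j (w j)` be unitary Hecke characters of `K j`, of any moduli and of any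
infinite types, and let `f a j 1, f a j 2, …, f a j (z j)` be eigenforms of any weights `≥ 1`, any
levels and any characters, such that for fixed `j` all the conjugates of the `ψ a j r` by the elements
of `G j` are different and all the twists of the `f a j r` by the characters in `X j` are different.
Suppose that for every `a` the product of the `L`-functions of `V₀` over `K₀`, of
`V j ⊗ (ψ a j 1 + … + ψ a j (w j))` over `K j` and of `U j ⊗ (f a j 1 + … + f a j (z j))` over `L j`
extends meromorphically to a neighbourhood of `s₀ = i / 2 + 1`; here the representations of the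
eigenforms are normalised to be unitary. Then its order `m a` at `s₀` is finite, and with
`D = ∑ d j * √(w j / |G j|) + ∑ e j * √(z j * [L j : ℚ] / |X j|)`

(1) if `n` is the order of the `L`-function of `V₀` at `s₀` (for instance `n = 0` if `V₀ = 0`, and
`n = -b₀` if `V₀` is spanned by `b₀` classes of algebraic cycles over `K₀`), then the sum of the
squares of the `m a - n` is at most `D ^ 2`, so that `m a = n` for all but at most `D ^ 2` of the `a`;
if `D < 1`, then `m a = n` for all `a`. If there are infinitely many indices `a`, then there is an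
integer `n` with the same property, and nothing is assumed about the `L`-function of `V₀`;
(2) if the real parts of the traces of `V₀` are at least `c * N(v) ^ (i / 2)` for all but finitely
many primes `v`, then the sum of the squares of the positive parts of the `m a + c` is at most
`D ^ 2`; nothing is assumed about the `L`-function of `V₀` and about the number of the indices. So,
if `c > -1`, then `m a > 0` for at most `(D / (1 + c)) ^ 2` of the `a`, and for none if `D < 1 + c`; and
`n ≤ -c` in part (1), if there are infinitely many `a`.

In both parts `d j ^ 2` and `e j ^ 2` may be replaced by the orders `δ j` and `θ j` of the poles at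
`i + 1` of the `L`-functions of the tensor products of `V j` and `U j` with their complex conjugates,
if these extend.

For example, let `Y` be any smooth projective variety over `ℚ` and let `E` be an elliptic curve over
`ℚ`. Then `H ^ i (Y × E)` is the sum of `V₀ = H ^ i (Y) + H ^ (i - 2) (Y) (-1)` and of `U₁ ⊗ f`, with
the eigenform `f` of `E` (Wiles, Breuil-Conrad-Diamond-Taylor) and `U₁ = H ^ (i - 1) (Y)`, normalised
to have weight `i`. So if the `L`-function of `V₀` has the order `n` at `s₀`, then the `L`-function of
`H ^ i (Y × E)`, if it extends, has the order `n` for all but at most `b ^ 2` isogeny classes of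
curves `E`, `b` the Betti number of `Y` of degree `i - 1`, and its order differs from `n` by at most
`b` for all `E`. If `Y` has no odd cohomology and `i` is odd, then `V₀ = 0`, and the order is `0` but
for these at most `b ^ 2` classes. If `Y` is a curve of genus `g` and `i = 2`, then `n = -2`.

There is no exception for the curves `C` over `ℚ` with the equation `y ^ 2 = x ^ l + a`, if `l` is a
prime number `> b ^ 2 + 1`: `H ^ 1 (C)` is induced from a Hecke character `ψ` of `K = ℚ (ζ_l)` whose
`l - 1` conjugates are different, since its infinite type `{1, 2, …, (l - 1) / 2}` is invariant under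
no multiplication modulo `l`, so that `D = b / √(l - 1) < 1`. The same holds for `Y × E` over any
Galois number field `K` of degree `> 2 b ^ 2`, if `E` is an elliptic curve over `K` with complex
multiplication by an order in a subfield of `K`, no two of whose conjugates over `ℚ` are isogenous
over `K`: here `H ^ i (Y × E)` is the sum of `V₀` and of `V₁ ⊗ (ψ + conj ψ)`.

If `Z` is a smooth projective, geometrically connected variety over `ℚ` of dimension `d`, `Y = Z × Z`
and `i = 2 d`, then the traces of `V₀ = H ^ i (Z × Z) + H ^ (i - 2) (Z × Z) (-1)` are at least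
`p ^ (i / 2)`, and part (2) with `c = 1` applies: the `L`-function of `H ^ i (Z × Z × E)`, if it
extends, has a zero at `s₀` for at most `b ^ 2 / 4` isogeny classes of elliptic curves `E` over `ℚ`,
and that of `H ^ i (Z × Z × C)` has no zero for the curves `C` above with `l > b ^ 2 / 4 + 1`, and a
pole for `l > b ^ 2 + 1`. -/
theorem result {κ κ' : Type} [Fintype κ] [Fintype κ'] (K₀ : Type) [Field K₀] [NumberField K₀]
    (K : κ → Type) [∀ j, Field (K j)] [∀ j, NumberField (K j)]
    (L : κ' → Type) [∀ j, Field (L j)] [∀ j, NumberField (L j)]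
    (S₀ : Finset (HeightOneSpectrum (𝓞 K₀))) (t₀ : HeightOneSpectrum (𝓞 K₀) → ℕ → ℂ)
    (S : ∀ j, Finset (HeightOneSpectrum (𝓞 (K j))))
    (t : ∀ j, HeightOneSpectrum (𝓞 (K j)) → ℕ → ℂ)
    (R : ∀ j, Finset (HeightOneSpectrum (𝓞 (L j))))
    (u : ∀ j, HeightOneSpectrum (𝓞 (L j)) → ℕ → ℂ)
    (i : ℕ) (b₀ : ℝ) (d δ : κ → ℝ) (e θ : κ' → ℝ) (w : κ → ℕ) (z M : κ' → ℕ) [∀ j, NeZero (M j)]
    (hb₀ : 0 ≤ b₀) (h₀ : WeilK S₀ t₀ i b₀)
    (hd : ∀ j, 0 ≤ d j) (ht : ∀ j, WeilK (S j) (t j) i (d j))
    (hδ : ∀ j, SecondMoment (S j) (t j) i (d j) (δ j))
    (he : ∀ j, 0 ≤ e j) (hu : ∀ j, WeilK (R j) (u j) i (e j))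
    (hθ : ∀ j, SecondMoment (R j) (u j) i (e j) (θ j))
    (G : ∀ j, Subgroup (K j ≃ₐ[ℚ] K j)) (hG : ∀ j, InvariantK (S j) (t j) (G j))
    (X : ∀ j, Subgroup (DirichletCharacter ℂ (M j))) (hX : ∀ j, SelfTwists (u j) (X j))
    (ι : Type) (ψ : ι → ∀ j, Fin (w j) → HeckeChar (K j)) (hψ : DistinctOrbits G δ ψ)
    (f : ι → ∀ j, Fin (z j) → Eigenform) (hf : DistinctTwists X θ f)
    (F : ι → ℂ → ℂ) (hF : ∀ a, IsTwistContinuation S₀ t₀ S t R u i (ψ a) (f a) (F a))
    (D : ℝ) (hD : D = ∑ j, Real.sqrt (w j * δ j / Nat.card (G j)) +
      ∑ j, Real.sqrt (z j * θ j * Module.finrank ℚ (L j) / Nat.card (X j))) :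
    ∃ m : ι → ℤ, (∀ a, meromorphicOrderAt (F a) ((i : ℂ) / 2 + 1) = m a) ∧
      (∀ n, OrdK S₀ t₀ i n → NearlyEqual m n D) ∧ (Infinite ι → ∃ n, NearlyEqual m n D) ∧
      ∀ c, LowerK t₀ i c → NearlyAtMost m c D :=
  twist_familiesZ X hX hb₀ h₀ hd ht hδ G hG he hu hθ ψ hψ f hf F hF hD

end Pool.Agent.Results.MP_2b9663_nt.ModularTwists
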